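import Pool.Agent.MWS.StmtsA

/-!
# Row mws GLD: both forms of the distributive law
-/

set_option autoImplicit false

namespace Pool.Agent.MWS.H27

open Pool.Agent.Helper14_MV Pool.Agent.Helper2_MV Pool.Agent.MVO Pool.Agent.MWL
open Pool.Agent.MWS

/-- `MJ` on words -/
theorem mj_words {β : FIC} (h : MJ β) {ρ σ τ : FIC} (h1 : β ≤ ρ) (h2 : β ≤ σ) (h3 : β ≤ τ)
    {a b : Word} (hs : (FIC.sup ρ σ).r a b) (ht : τ.r a b) : (psi ρ σ τ).r a b := by
  have := h ρ σ τ h1 h2 h3 (FreeMonoid.toList a) (FreeMonoid.toList b)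
  unfold RR at this
  rw [FreeMonoid.ofList_toList, FreeMonoid.ofList_toList] at this
  exact this hs ht

theorem gld : GldStmt := by
  intro β h ρ σ τ h1 h2 h3 u v hs ht
  have hκ : β ≤ FIC.sup ρ τ := fun a b hab => FIC.le_sup_left ρ τ a b (h1 a b hab)
  have h4 := mj_words h h1 h2 hκ hs ht
  refine FIC.sup_le ?_ ?_ u v h4
  · intro a b hab
    exact FIC.le_sup_left _ _ a b hab.1
  · intro a b hab
    have h5 := mj_words h h1 h3 h2 hab.2 hab.1
    refine FIC.sup_le ?_ ?_ a b h5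
    · intro c d hcd
      exact FIC.le_sup_left _ _ c d hcd.1
    · intro c d hcd
      exact FIC.le_sup_right _ _ c d ⟨hcd.2, hcd.1⟩

end Pool.Agent.MWS.H27
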