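import Pool.Agent.MWS.StmtsW

/-!
# Row mws BSX: `ClX β → BaseR β`
-/

set_option autoImplicit false

namespace Pool.Agent.MWS.H27

open Pool.Agent.Helper14_MV Pool.Agent.Helper2_MV Pool.Agent.MVO Pool.Agent.MWL
open Pool.Agent.MWS

theorem bsx : BsxStmt := by
  intro β h
  have h1 : RR β [0, 0, 2, 0] [0, 0, 0, 2, 0, 0] :=
    h.be.sub (fun c => if c = 0 then [0] else [0, 2])
  have h2 : RR β [0, 0, 0, 2, 0, 0] [0, 0, 2, 0, 0] :=
    (h.ap.symm).append (RR.refl (β := β) [2, 0, 0])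
  exact { toApI := h.toApI, rr := β.trans h1 h2 }

end Pool.Agent.MWS.H27
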